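import Pool.Agent.helper17.CH.SpecQ
import Pool.Agent.helper70.GD.BV

/-!
# Row ch:BQW (MP_5628fe_nt): the switched sequence in progressions in almost all windows, from BQL and QSC
-/

set_option autoImplicit false

namespace Pool.Agent.CH

open Finset ArithmeticFunction

private lemma BQW_coprime (r : ℕ → ℕ) (hr : ClB r) (m : ℕ) (hm : 0 < m) (h30 : Nat.Coprime m 30) :
    Nat.Coprime (r m) (30 * m) := by
  obtain ⟨h1, h2⟩ := hr m hm h30
  refine Nat.Coprime.mul_right ?_ ?_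
  · have h3 : Nat.gcd (r m) 30 = Nat.gcd 7 30 := h1.gcd_eq
    rw [Nat.Coprime, h3]
    norm_num
  · have h3 : Nat.gcd (r m) m = Nat.gcd 6 m := h2.gcd_eq
    rw [Nat.coprime_iff_gcd_eq_one, h3]
    have h4 : Nat.gcd 6 m ∣ 30 := (Nat.gcd_dvd_left _ _).trans (by norm_num)
    have h5 : Nat.gcd 6 m ∣ Nat.gcd m 30 := Nat.dvd_gcd (Nat.gcd_dvd_right _ _) h4
    rw [h30] at h5
    exact Nat.dvd_one.mp h5

private lemma BQW_swap (N : ℕ) (z y : ℝ) (c f : ℕ → ℝ) :
    ∑ n ∈ Ico N (2 * N), c n * ∑ j ∈ BN N z y ∩ Win n, f j =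
      ∑ j ∈ BN N z y, f j * cc N c j := by
  have h1 : ∀ j ∈ BN N z y, f j * cc N c j =
      ∑ n ∈ Ico N (2 * N), if j ∈ Win n then f j * c n else 0 := by
    intro j _
    unfold cc
    rw [mul_sum]
    refine sum_congr rfl fun n _ => ?_
    split_ifs
    · rfl
    · rw [mul_zero]
  rw [sum_congr rfl h1, sum_comm]
  refine sum_congr rfl fun n hn => ?_
  rw [← sum_filter, mul_sum]
  have h2 : (BN N z y).filter (fun j => j ∈ Win n) = BN N z y ∩ Win n := by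
    ext j
    rw [mem_filter, mem_inter]
  rw [h2]
  exact sum_congr rfl fun j _ => mul_comm _ _

theorem BQW (hBQL : BQL_stmt) (hQSC : QSC_stmt) : BQW_stmt := by
  intro ε A hε hε1
  obtain ⟨B, N₁, H1⟩ := hBQL ε (A + 2) hε hε1
  obtain ⟨N₂, H2⟩ := hQSC (A + 3) (B + 1)
  refine ⟨max (max N₁ N₂) ⌈Real.exp 12⌉₊, ?_⟩
  intro N hN z y hzy r hr l hl
  have hN1 : N₁ ≤ N := (le_max_left _ _).trans ((le_max_left _ _).trans hN)
  have hN2 : N₂ ≤ N := (le_max_right _ _).trans ((le_max_left _ _).trans hN)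
  have hNe : Real.exp 12 ≤ N := (Nat.le_ceil _).trans (by exact_mod_cast (le_max_right _ _).trans hN)
  have hNpos : (0 : ℝ) < N := (Real.exp_pos _).trans_le hNe
  have hN0 : 0 < N := by exact_mod_cast hNpos
  have hL : 12 ≤ Real.log N := by
    rw [← Real.log_exp 12]
    exact Real.log_le_log (Real.exp_pos _) hNe
  set L := Real.log N with hLdef
  have hL0 : 0 < L := by linarith
  set Q := ⌊(N : ℝ) ^ (1 - ε)⌋₊ with hQ
  have hQN : Q ≤ N := by
    have h5 : (N : ℝ) ^ (1 - ε) ≤ (N : ℝ) ^ (1 : ℝ) := by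
      refine Real.rpow_le_rpow_of_exponent_le ?_ (by linarith)
      exact_mod_cast hN0
    rw [Real.rpow_one] at h5
    exact Nat.floor_le_of_le h5
  set R₀ := ⌈L ^ B⌉₊ with hR₀
  have hR₀1 : 1 ≤ R₀ := Nat.ceil_pos.mpr (by positivity)
  have hR₀L : L ^ B ≤ (R₀ : ℝ) := Nat.le_ceil _
  have hR₀U : (R₀ : ℝ) ≤ L ^ (B + 1) := by
    have h5 := (Nat.ceil_lt_add_one (by positivity : 0 ≤ L ^ B)).le
    have h6 : (1 : ℝ) ≤ L ^ B := one_le_pow₀ (by linarith)
    have h7 : L ^ (B + 1) = L ^ B * L := pow_succ _ _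
    rw [h7]
    nlinarith
  set k := Nat.log 2 (30 * N) + 1 with hk
  have hkX : 30 * N ≤ R₀ * 2 ^ k := by
    have h5 : 30 * N < 2 ^ k := Nat.lt_pow_succ_log_self (by norm_num) (30 * N)
    have h6 : 2 ^ k ≤ R₀ * 2 ^ k := Nat.le_mul_of_pos_left _ hR₀1
    omega
  have hkL : (k : ℝ) ≤ 3 * L := by
    have h5 := GD.BV_log2 (30 * N) (by omega)
    have h6 : Real.log ((30 * N : ℕ) : ℝ) = Real.log 30 + L := by
      push_cast
      rw [Real.log_mul (by norm_num) hNpos.ne']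
    have h7 : Real.log 30 ≤ 4 := by
      have h8 : Real.log 30 ≤ Real.log 32 := Real.log_le_log (by norm_num) (by norm_num)
      have h9 : Real.log 32 = 5 * Real.log 2 := by
        rw [show (32 : ℝ) = 2 ^ 5 by norm_num, Real.log_pow]
        norm_num
      have h10 := Real.log_two_lt_d9
      linarith
    rw [hk]
    push_cast
    rw [h6] at h5
    linarith
  have hMo : ∀ m ∈ Mo ((N : ℝ) ^ (1 - ε)), 0 < m ∧ m ≤ Q ∧ Nat.Coprime m 30 := by
    intro m hm
    unfold Mo at hm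
    rw [mem_filter, mem_Icc] at hm
    exact ⟨hm.1.1, hm.1.2, hm.2⟩
  -- the signs
  set S : ℕ → ℝ := fun n => ∑ m ∈ Mo ((N : ℝ) ^ (1 - ε)), l m *
    ((#((BN N z y ∩ Win n).filter fun b => b ≡ r m [MOD 30 * m]) : ℝ) -
          (#(BN N z y ∩ Win n) : ℝ) / (Nat.totient (30 * m) : ℝ))
    with hS
  set c : ℕ → ℝ := fun n => if 0 ≤ S n then 1 else -1 with hc
  have hc1 : ∀ n, |c n| ≤ 1 := by
    intro n
    simp only [hc]
    split_ifs
    · rw [abs_one]
    · rw [abs_neg, abs_one]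
  have hcS : ∀ n, |S n| = c n * S n := by
    intro n
    simp only [hc]
    split_ifs with h
    · rw [abs_of_nonneg h, one_mul]
    · rw [abs_of_neg (not_le.mp h)]
      ring
  -- pointwise
  have hpt : ∀ m ∈ Mo ((N : ℝ) ^ (1 - ε)),
      |∑ n ∈ Ico N (2 * N), c n * ((#((BN N z y ∩ Win n).filter fun b => b ≡ r m [MOD 30 * m]) : ℝ) -
          (#(BN N z y ∩ Win n) : ℝ) / (Nat.totient (30 * m) : ℝ))| ≤
      (1 / (Nat.totient (30 * m) : ℝ)) * ((N : ℝ) ^ 3 / L ^ (A + 3)) +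
        ∑ i ∈ range k, |∑ j ∈ BN N z y,
          cc N c j * GD.kp (R₀ * 2 ^ i) (30 * m) (r m) j| := by
    intro m hm
    obtain ⟨hm0, hmQ, hm30⟩ := hMo m hm
    have hcop := BQW_coprime r hr m hm0 hm30
    have h30m : 0 < 30 * m := by omega
    have hle : 30 * m ≤ 30 * N := by
      have := hmQ.trans hQN
      omega
    have hle2 : 30 * m ≤ 64 * N ^ 3 := by
      have h5 : N ≤ N ^ 3 := Nat.le_self_pow (by norm_num) N
      omega
    have e0 : ∑ n ∈ Ico N (2 * N), c n * ((#((BN N z y ∩ Win n).filter fun b => b ≡ r m [MOD 30 * m]) : ℝ) -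
          (#(BN N z y ∩ Win n) : ℝ) / (Nat.totient (30 * m) : ℝ)) =
        ∑ j ∈ BN N z y, (if j ≡ r m [MOD 30 * m] then (1 : ℝ) else 0) * cc N c j -
          (1 / (Nat.totient (30 * m) : ℝ)) * ∑ j ∈ BN N z y, cc N c j := by
      have h5 := BQW_swap N z y c (fun j => if j ≡ r m [MOD 30 * m] then 1 else 0)
      have h6 := BQW_swap N z y c (fun _ => 1)
      simp only [one_mul] at h6
      rw [← h5, ← h6, mul_sum, ← sum_sub_distrib]
      refine sum_congr rfl fun n _ => ?_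
      rw [← sum_filter, sum_const, sum_const, nsmul_eq_mul, nsmul_eq_mul, mul_one, mul_one]
      ring
    have e1 : ∑ j ∈ BN N z y, (if j ≡ r m [MOD 30 * m] then (1 : ℝ) else 0) * cc N c j =
        ∑ j ∈ BN N z y, cc N c j * GD.ks R₀ (30 * m) (r m) j +
          ∑ i ∈ range k, ∑ j ∈ BN N z y,
            cc N c j * GD.kp (R₀ * 2 ^ i) (30 * m) (r m) j := by
      rw [sum_comm, ← sum_add_distrib]
      refine sum_congr rfl fun j _ => ?_
      rw [← mul_sum, ← mul_add, ← GD.BV_steps, GD.BV_full h30m _ _ _ hcop (hle.trans hkX)]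
      split_ifs
      · rw [mul_one, one_mul]
      · rw [mul_zero, zero_mul]
    rw [e0, e1, add_sub_right_comm]
    refine (abs_add_le _ _).trans (add_le_add ?_ (abs_sum_le_sum_abs _ _))
    exact H2 N hN2 z y hzy c hc1 (30 * m) (r m) R₀ h30m hle2 hcop hR₀1 hR₀U
  have htot : ∑ n ∈ Ico N (2 * N), |S n| ≤ ∑ m ∈ Mo ((N : ℝ) ^ (1 - ε)),
      |∑ n ∈ Ico N (2 * N), c n * ((#((BN N z y ∩ Win n).filter fun b => b ≡ r m [MOD 30 * m]) : ℝ) -
          (#(BN N z y ∩ Win n) : ℝ) / (Nat.totient (30 * m) : ℝ))| := by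
    have e0 : ∑ n ∈ Ico N (2 * N), |S n| = ∑ m ∈ Mo ((N : ℝ) ^ (1 - ε)), l m *
        ∑ n ∈ Ico N (2 * N), c n * ((#((BN N z y ∩ Win n).filter fun b => b ≡ r m [MOD 30 * m]) : ℝ) -
          (#(BN N z y ∩ Win n) : ℝ) / (Nat.totient (30 * m) : ℝ)) := by
      have h5 : ∀ n ∈ Ico N (2 * N), |S n| = ∑ m ∈ Mo ((N : ℝ) ^ (1 - ε)), l m *
          (c n * ((#((BN N z y ∩ Win n).filter fun b => b ≡ r m [MOD 30 * m]) : ℝ) -
          (#(BN N z y ∩ Win n) : ℝ) / (Nat.totient (30 * m) : ℝ))) := by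
        intro n _
        rw [hcS n, hS, mul_sum]
        refine sum_congr rfl fun m _ => ?_
        ring
      rw [sum_congr rfl h5, sum_comm]
      refine sum_congr rfl fun m _ => ?_
      rw [mul_sum]
    rw [e0]
    refine sum_le_sum fun m _ => ?_
    refine (le_abs_self _).trans ?_
    rw [abs_mul]
    exact mul_le_of_le_one_left (abs_nonneg _) (hl m)
  refine htot.trans ((sum_le_sum hpt).trans ?_)
  rw [sum_add_distrib, ← sum_mul, sum_comm]
  have hA1 : ∑ i ∈ range k, ∑ m ∈ Mo ((N : ℝ) ^ (1 - ε)),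
      |∑ j ∈ BN N z y, cc N c j * GD.kp (R₀ * 2 ^ i) (30 * m) (r m) j| ≤
      3 * L * ((N : ℝ) ^ 3 / L ^ (A + 2)) := by
    have h5 : ∀ i ∈ range k, ∑ m ∈ Mo ((N : ℝ) ^ (1 - ε)),
        |∑ j ∈ BN N z y, cc N c j * GD.kp (R₀ * 2 ^ i) (30 * m) (r m) j| ≤
        (N : ℝ) ^ 3 / L ^ (A + 2) := by
      intro i _
      refine H1 N hN1 z y hzy c hc1 r hr (R₀ * 2 ^ i) (hR₀L.trans ?_)
      have : R₀ ≤ R₀ * 2 ^ i := Nat.le_mul_of_pos_right _ (by positivity)
      exact_mod_cast this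
    refine (sum_le_sum h5).trans ?_
    rw [sum_const, card_range, nsmul_eq_mul]
    exact mul_le_mul_of_nonneg_right hkL (by positivity)
  have hA2 : ∑ m ∈ Mo ((N : ℝ) ^ (1 - ε)), 1 / (Nat.totient (30 * m) : ℝ) ≤ 6 * L ^ 2 := by
    have h5 : ∑ m ∈ Mo ((N : ℝ) ^ (1 - ε)), 1 / (Nat.totient (30 * m) : ℝ) ≤
        ∑ m ∈ Icc 1 Q, 1 / (Nat.totient m : ℝ) := by
      calc ∑ m ∈ Mo ((N : ℝ) ^ (1 - ε)), 1 / (Nat.totient (30 * m) : ℝ)
          ≤ ∑ m ∈ Mo ((N : ℝ) ^ (1 - ε)), 1 / (Nat.totient m : ℝ) := by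
            refine sum_le_sum fun m hm => ?_
            obtain ⟨hm0, _, _⟩ := hMo m hm
            have h6 : (0 : ℝ) < Nat.totient m := by exact_mod_cast Nat.totient_pos.mpr hm0
            refine one_div_le_one_div_of_le h6 ?_
            have h7 : Nat.totient m ≤ Nat.totient (30 * m) :=
              Nat.le_of_dvd (Nat.totient_pos.mpr (by omega))
                (Nat.totient_dvd_of_dvd (Nat.dvd_mul_left m 30))
            exact_mod_cast h7
        _ ≤ ∑ m ∈ Icc 1 Q, 1 / (Nat.totient m : ℝ) := by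
            refine sum_le_sum_of_subset_of_nonneg ?_ (fun m _ _ => by positivity)
            intro m hm
            obtain ⟨hm0, hmQ, _⟩ := hMo m hm
            rw [mem_Icc]
            exact ⟨hm0, hmQ⟩
    refine h5.trans ?_
    rcases Nat.eq_zero_or_pos Q with h | h
    · rw [h]
      simp only [Icc_eq_empty_of_lt zero_lt_one, sum_empty]
      positivity
    · refine (GD.BV_sum_inv Q h).trans ?_
      have h6 : Real.log Q ≤ L := Real.log_le_log (by exact_mod_cast h) (by exact_mod_cast hQN)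
      have h7 : 0 ≤ Real.log Q := Real.log_natCast_nonneg Q
      nlinarith
  have hA3 : (∑ m ∈ Mo ((N : ℝ) ^ (1 - ε)), 1 / (Nat.totient (30 * m) : ℝ)) *
      ((N : ℝ) ^ 3 / L ^ (A + 3)) ≤ 6 * L ^ 2 * ((N : ℝ) ^ 3 / L ^ (A + 3)) :=
    mul_le_mul_of_nonneg_right hA2 (by positivity)
  refine (add_le_add hA3 hA1).trans ?_
  have e2 : 6 * L ^ 2 * ((N : ℝ) ^ 3 / L ^ (A + 3)) = 6 / L * ((N : ℝ) ^ 3 / L ^ A) := by
    rw [pow_add]
    field_simp
  have e3 : 3 * L * ((N : ℝ) ^ 3 / L ^ (A + 2)) = 3 / L * ((N : ℝ) ^ 3 / L ^ A) := by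
    rw [pow_add]
    field_simp
  rw [e2, e3, ← add_mul]
  have h8 : 6 / L + 3 / L ≤ 1 := by
    rw [← add_div, div_le_one hL0]
    linarith
  calc (6 / L + 3 / L) * ((N : ℝ) ^ 3 / L ^ A) ≤ 1 * ((N : ℝ) ^ 3 / L ^ A) :=
        mul_le_mul_of_nonneg_right h8 (by positivity)
    _ = (N : ℝ) ^ 3 / L ^ A := one_mul _

end Pool.Agent.CH
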